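import Pool.Agent.H84.PP.Stm

/-!
# Project PP: the pairs `(c, c')` for given `a`, `a'`, `N₀` (common part of QA and QB)
-/

set_option autoImplicit false

namespace Pool.Agent.H83.PP

open Pool.Agent.H84.PP

theorem pairs {Z : ℕ} {E P : ℝ} (hU : Un Z E) (hP : PB Z P) (hZ : 6 ≤ Z) {L : ℕ} (hL : 1 ≤ L)
    (hLZ : L ≤ Z) {a a' N₀ : ℤ} (ha : a ≠ 0) (ha' : a' ≠ 0) (hN : N₀ ≠ 0) (haZ : a.natAbs ≤ Z)
    (haZ' : a'.natAbs ≤ Z) (S : Finset (ℤ × ℤ))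
    (hS : ∀ p ∈ S, p.1 ≠ 0 ∧ p.2 ≠ 0 ∧ IsC L p.1 ∧ IsC L p.2 ∧ p.1.natAbs ≤ Z ∧ p.2.natAbs ≤ Z ∧
      a' * p.1 - a * p.2 = N₀) : (S.card : ℝ) ≤ 4 * E ^ 2 * P := by
  classical
  have hE := hU.one
  have hch : ∀ c : ℤ, ∃ su : ℕ × ℕ, IsC L c → c.natAbs = su.1 * su.2 ^ 2 ∧ Sm L su.1 := by
    intro c
    by_cases h : IsC L c
    · obtain ⟨σ, u, h1, h2⟩ := h
      exact ⟨(σ, u), fun _ => ⟨h1, h2⟩⟩
    · exact ⟨(0, 0), fun h' => absurd h' h⟩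
  choose F hF using hch
  -- sizes
  have hsz : ∀ c : ℤ, c ≠ 0 → IsC L c → c.natAbs ≤ Z →
      (F c).1 ∈ SN Z L ∧ 1 ≤ (F c).1 ∧ (F c).1 ≤ Z ∧ (F c).2 ≤ Z := by
    intro c hc hI hcZ
    obtain ⟨h1, h2⟩ := hF c hI
    have h0 : c.natAbs ≠ 0 := Int.natAbs_ne_zero.2 hc
    rw [h1] at h0 hcZ
    obtain ⟨h3, h4⟩ := mul_ne_zero_iff.1 h0
    have h5 : (F c).2 ≠ 0 := fun h => h4 (by rw [h]; norm_num)
    have h6 : (F c).1 ≤ Z := (Nat.le_mul_of_pos_right _ (Nat.pos_of_ne_zero h4)).trans hcZ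
    have h7 : (F c).2 ≤ Z := by
      calc (F c).2 ≤ (F c).2 ^ 2 := Nat.le_self_pow (by norm_num) _
        _ ≤ (F c).1 * (F c).2 ^ 2 := Nat.le_mul_of_pos_left _ (Nat.pos_of_ne_zero h3)
        _ ≤ Z := hcZ
    exact ⟨mem_SN.2 ⟨⟨Nat.pos_of_ne_zero h3, h6⟩, h2⟩, Nat.pos_of_ne_zero h3, h6, h7⟩
  have hZ10 : Z ≤ Z ^ 10 := Nat.le_self_pow (by norm_num) Z
  have hSN : ((SN Z L).card : ℝ) ≤ E := hU.sm Z L hL hZ10 (hLZ.trans hZ10)
  let T : Finset ((ℤ × ℤ) × (ℕ × ℕ)) :=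
    ((({1, -1} : Finset ℤ) ×ˢ ({1, -1} : Finset ℤ)) ×ˢ (SN Z L ×ˢ SN Z L))
  have hT : (T.card : ℝ) ≤ 4 * E ^ 2 := by
    have h1 : T.card = 4 * ((SN Z L).card * (SN Z L).card) := by
      simp only [T, Finset.card_product]
      rfl
    rw [h1]
    push_cast
    have h2 : ((SN Z L).card : ℝ) * (SN Z L).card ≤ E * E :=
      mul_le_mul hSN hSN (Nat.cast_nonneg _) (by linarith)
    nlinarith
  have hsgn : ∀ c : ℤ, c ≠ 0 → c.sign ∈ ({1, -1} : Finset ℤ) := by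
    intro c hc
    rw [Finset.mem_insert, Finset.mem_singleton]
    rcases lt_or_gt_of_ne hc with h | h
    · exact Or.inr (Int.sign_eq_neg_one_of_neg h)
    · exact Or.inl (Int.sign_eq_one_of_pos h)
  refine fib S (fun p => ((p.1.sign, p.2.sign), ((F p.1).1, (F p.2).1))) T
    (by linarith [hP.1]) hT ?_ ?_
  · intro p hp
    obtain ⟨h1, h2, h3, h4, h5, h6, -⟩ := hS p hp
    refine Finset.mem_product.2 ⟨Finset.mem_product.2 ⟨hsgn _ h1, hsgn _ h2⟩,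
      Finset.mem_product.2 ⟨(hsz _ h1 h3 h5).1, (hsz _ h2 h4 h6).1⟩⟩
  · rintro ⟨⟨ε, ε'⟩, ⟨σ, σ'⟩⟩ hb
    obtain ⟨hb1, hb2⟩ := Finset.mem_product.1 hb
    obtain ⟨hε, hε'⟩ := Finset.mem_product.1 hb1
    obtain ⟨hσ, hσ'⟩ := Finset.mem_product.1 hb2
    simp only [Finset.mem_insert, Finset.mem_singleton] at hε hε'
    obtain ⟨⟨hσ1, hσZ⟩, -⟩ := mem_SN.1 hσ
    obtain ⟨⟨hσ1', hσZ'⟩, -⟩ := mem_SN.1 hσ'
    simp only [] at hσ1 hσZ hσ1' hσZ' hε hε'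
    have hε0 : ε ≠ 0 := by rcases hε with h | h <;> rw [h] <;> norm_num
    have hε0' : ε' ≠ 0 := by rcases hε' with h | h <;> rw [h] <;> norm_num
    have hεa : ε.natAbs = 1 := by rcases hε with h | h <;> rw [h] <;> rfl
    have hεa' : ε'.natAbs = 1 := by rcases hε' with h | h <;> rw [h] <;> rfl
    have hs0 : a' * (ε * (σ : ℤ)) ≠ 0 :=
      mul_ne_zero ha' (mul_ne_zero hε0 (by exact_mod_cast (Nat.pos_of_ne_zero (by omega)).ne'))
    set s : ℤ := a' * (ε * (σ : ℤ)) with hs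
    have hsZ : s.natAbs ≤ Z * Z := by
      rw [hs, Int.natAbs_mul, Int.natAbs_mul, hεa, one_mul, Int.natAbs_natCast]
      exact Nat.mul_le_mul haZ' hσZ
    clear_value s
    set Fb := S.filter (fun p => (((p.1.sign, p.2.sign), ((F p.1).1, (F p.2).1)) :
      (ℤ × ℤ) × (ℕ × ℕ)) = ((ε, ε'), (σ, σ'))) with hFb
    have hmem : ∀ p ∈ Fb, p ∈ S ∧ p.1 = ε * ((σ : ℤ) * ((F p.1).2 : ℤ) ^ 2) ∧
        p.2 = ε' * ((σ' : ℤ) * ((F p.2).2 : ℤ) ^ 2) := by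
      intro p hp
      obtain ⟨h1, h2⟩ := Finset.mem_filter.1 hp
      obtain ⟨h3, h4, h5, h6, -⟩ := hS p h1
      simp only [Prod.mk.injEq] at h2
      obtain ⟨⟨e1, e2⟩, e3, e4⟩ := h2
      refine ⟨h1, ?_, ?_⟩
      · have h7 := Int.sign_mul_natAbs p.1
        rw [e1, (hF _ h5).1, e3] at h7
        push_cast at h7
        exact h7.symm
      · have h7 := Int.sign_mul_natAbs p.2
        rw [e2, (hF _ h6).1, e4] at h7
        push_cast at h7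
        exact h7.symm
    rcases Fb.eq_empty_or_nonempty with he | hne
    · rw [he, Finset.card_empty, Nat.cast_zero]
      linarith [hP.1]
    -- the size of `N₀`
    have hN0 : N₀.natAbs ≤ Z ^ 3 := by
      obtain ⟨p, hp⟩ := hne
      obtain ⟨h1, -, -⟩ := hmem p hp
      obtain ⟨-, -, -, -, h5, h6, h7⟩ := hS p h1
      rw [← h7]
      calc (a' * p.1 - a * p.2).natAbs ≤ (a' * p.1).natAbs + (a * p.2).natAbs :=
            Int.natAbs_sub_le _ _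
        _ ≤ Z * Z + Z * Z := by
            rw [Int.natAbs_mul, Int.natAbs_mul]
            exact add_le_add (Nat.mul_le_mul haZ' h5) (Nat.mul_le_mul haZ h6)
        _ ≤ Z ^ 3 := by nlinarith [Nat.mul_le_mul hZ (le_refl (Z * Z))]
    set d : ℤ := s * (a * (ε' * (σ' : ℤ))) with hd
    have hZ0 : 0 < Z := by omega
    have hd0 : d ≠ 0 := mul_ne_zero hs0 (mul_ne_zero ha (mul_ne_zero hε0'
      (by exact_mod_cast (Nat.pos_of_ne_zero (by omega)).ne')))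
    have hdZ : d.natAbs ≤ Z ^ 10 := by
      rw [hd, Int.natAbs_mul, Int.natAbs_mul, Int.natAbs_mul, hεa', one_mul, Int.natAbs_natCast]
      calc s.natAbs * (a.natAbs * σ') ≤ (Z * Z) * (Z * Z) :=
            Nat.mul_le_mul hsZ (Nat.mul_le_mul haZ hσZ')
        _ = Z ^ 4 := by ring
        _ ≤ Z ^ 10 := Nat.pow_le_pow_right hZ0 (by norm_num)
    have hsN : (s * N₀).natAbs ≤ Z ^ 10 := by
      rw [Int.natAbs_mul]
      calc s.natAbs * N₀.natAbs ≤ (Z * Z) * Z ^ 3 := Nat.mul_le_mul hsZ hN0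
        _ = Z ^ 5 := by ring
        _ ≤ Z ^ 10 := Nat.pow_le_pow_right hZ0 (by norm_num)
    have hinj : Set.InjOn (fun p : ℤ × ℤ => ((s * ((F p.1).2 : ℤ), ((F p.2).2 : ℤ)) : ℤ × ℤ)) Fb := by
      intro p hp p' hp' h
      obtain ⟨-, h1, h2⟩ := hmem p hp
      obtain ⟨-, h1', h2'⟩ := hmem p' hp'
      simp only [Prod.mk.injEq] at h
      have h3 := mul_left_cancel₀ hs0 h.1
      refine Prod.ext ?_ ?_
      · rw [h1, h1', h3]
      · rw [h2, h2', h.2]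
    rw [← Finset.card_image_of_injOn hinj]
    refine hP.2 d (s * N₀) hd0 (mul_ne_zero hs0 hN) hdZ hsN _ ?_
    intro r hr
    obtain ⟨p, hp, rfl⟩ := Finset.mem_image.1 hr
    obtain ⟨h1, h2, h3⟩ := hmem p hp
    obtain ⟨g1, g2, g3, g4, g5, g6, g7⟩ := hS p h1
    have w1 := (hsz _ g1 g3 g5).2.2.2
    have w2 := (hsz _ g2 g4 g6).2.2.2
    refine ⟨?_, ?_, ?_⟩
    · rw [← g7]
      have e1 : a' * p.1 = s * ((F p.1).2 : ℤ) ^ 2 := by
        conv_lhs => rw [h2]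
        rw [hs]
        ring
      have e2 : s * (a * p.2) = d * ((F p.2).2 : ℤ) ^ 2 := by
        conv_lhs => rw [h3]
        rw [hd]
        ring
      rw [mul_sub, e1, e2]
      ring
    · simp only []
      rw [Int.natAbs_mul, Int.natAbs_natCast]
      calc s.natAbs * (F p.1).2 ≤ (Z * Z) * Z := Nat.mul_le_mul hsZ w1
        _ = Z ^ 3 := by ring
        _ ≤ Z ^ 10 := Nat.pow_le_pow_right hZ0 (by norm_num)
    · simp only []
      rw [Int.natAbs_natCast]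
      exact w2.trans hZ10

end Pool.Agent.H83.PP
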